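import Mathlib

set_option autoImplicit false

namespace Pool.Agent.H72R2.Gar

variable {M : Type} [Monoid M]

/-- The part of the Garside axioms that is used: `d` is a Garside element of `M`. -/
structure IsGar (d : M) : Prop where
  lc : ∀ a b c : M, a * b = a * c → b = c
  rc : ∀ a b c : M, b * a = c * a → b = c
  atomic : ∃ len : M → ℕ, (∀ a b : M, len a + len b ≤ len (a * b)) ∧ ∀ a : M, len a = 0 → a = 1
  join : ∀ a b : M, ∃ m : M, a ∣ m ∧ b ∣ m ∧ ∀ x : M, a ∣ x → b ∣ x → m ∣ x
  bal : ∀ x : M, (∃ c, d = x * c) ↔ (∃ c, d = c * x)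
  gen : Submonoid.closure {x : M | ∃ c, d = x * c} = ⊤

variable {d : M}

theorem IsGar.mul_eq_one (h : IsGar d) {x y : M} (hxy : x * y = 1) : x = 1 := by
  obtain ⟨len, h1, h2⟩ := h.atomic
  have h3 := h1 1 1
  have h4 := h1 x y
  rw [hxy] at h4
  rw [mul_one] at h3
  exact h2 x (by omega)

theorem IsGar.mul_eq_one' (h : IsGar d) {x y : M} (hxy : x * y = 1) : y = 1 := by
  have := h.mul_eq_one hxy
  rw [this, one_mul] at hxy
  exact hxy

theorem IsGar.antisymm (h : IsGar d) {x y : M} (hxy : x ∣ y) (hyx : y ∣ x) : x = y := by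
  obtain ⟨a, rfl⟩ := hxy
  obtain ⟨b, hb⟩ := hyx
  have h1 : a * b = 1 := by
    apply h.lc x
    rw [mul_one, ← mul_assoc]
    exact hb.symm
  rw [h.mul_eq_one h1, mul_one]

/-- every element can be moved across `d` to the right -/
theorem IsGar.mul_d (h : IsGar d) (x : M) : ∃ y, x * d = d * y := by
  have hx : x ∈ Submonoid.closure {x : M | ∃ c, d = x * c} := by rw [h.gen]; trivial
  induction hx using Submonoid.closure_induction with
  | mem x hx =>
    obtain ⟨c, hc⟩ := hx
    obtain ⟨e, he⟩ := (h.bal c).2 ⟨x, hc⟩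
    exact ⟨e, by rw [he, ← mul_assoc, ← he, ← hc]⟩
  | one => exact ⟨1, by simp⟩
  | mul a b _ _ ha hb =>
    obtain ⟨u, hu⟩ := ha
    obtain ⟨v, hv⟩ := hb
    exact ⟨u * v, by rw [mul_assoc, hv, ← mul_assoc, hu, mul_assoc]⟩

/-- every element can be moved across `d` to the left -/
theorem IsGar.d_mul (h : IsGar d) (y : M) : ∃ x, d * y = x * d := by
  have hy : y ∈ Submonoid.closure {x : M | ∃ c, d = x * c} := by rw [h.gen]; trivial
  induction hy using Submonoid.closure_induction with
  | mem y hy =>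
    obtain ⟨c, hc⟩ := (h.bal y).1 hy
    obtain ⟨e, he⟩ := (h.bal c).1 ⟨y, hc⟩
    refine ⟨e, ?_⟩
    calc d * y = e * c * y := by rw [← he]
      _ = e * d := by rw [mul_assoc, ← hc]
  | one => exact ⟨1, by simp⟩
  | mul a b _ _ ha hb =>
    obtain ⟨u, hu⟩ := ha
    obtain ⟨v, hv⟩ := hb
    exact ⟨u * v, by rw [← mul_assoc, hu, mul_assoc, hv, ← mul_assoc]⟩

theorem IsGar.dvd_mul_d (h : IsGar d) {a b : M} (hab : a ∣ b) : a * d ∣ b * d := by
  obtain ⟨c, rfl⟩ := hab
  obtain ⟨y, hy⟩ := h.mul_d c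
  exact ⟨y, by rw [mul_assoc, hy, mul_assoc]⟩

theorem IsGar.of_dvd_mul_d (h : IsGar d) {a b : M} (hab : a * d ∣ b * d) : a ∣ b := by
  obtain ⟨c, hc⟩ := hab
  obtain ⟨x, hx⟩ := h.d_mul c
  refine ⟨x, h.rc d _ _ ?_⟩
  rw [hc, mul_assoc, hx, mul_assoc]

theorem IsGar.dvd_mul_pow (h : IsGar d) {a b : M} (n : ℕ) (hab : a ∣ b) :
    a * d ^ n ∣ b * d ^ n := by
  induction n with
  | zero => simpa using hab
  | succ n ih =>
    rw [pow_succ, ← mul_assoc, ← mul_assoc]
    exact h.dvd_mul_d ih

theorem IsGar.of_dvd_mul_pow (h : IsGar d) {a b : M} (n : ℕ) (hab : a * d ^ n ∣ b * d ^ n) :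
    a ∣ b := by
  induction n with
  | zero => simpa using hab
  | succ n ih =>
    rw [pow_succ, ← mul_assoc, ← mul_assoc] at hab
    exact ih (h.of_dvd_mul_d hab)

theorem mul_pow_dvd {a : M} {m n : ℕ} (hmn : m ≤ n) : a * d ^ m ∣ a * d ^ n := by
  obtain ⟨k, rfl⟩ := Nat.exists_eq_add_of_le hmn
  exact ⟨d ^ k, by rw [pow_add, mul_assoc]⟩

/-- a strictly increasing chain of length `n` -/
def Chain (p : ℕ → M) (n : ℕ) : Prop := ∀ i < n, p i ∣ p (i + 1) ∧ p i ≠ p (i + 1)

theorem chain_dvd {p : ℕ → M} {n : ℕ} (hp : ∀ i < n, p i ∣ p (i + 1)) {i j : ℕ} (hij : i ≤ j)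
    (hj : j ≤ n) : p i ∣ p j := by
  obtain ⟨k, rfl⟩ := Nat.exists_eq_add_of_le hij
  induction k with
  | zero => exact dvd_rfl
  | succ k ih =>
    exact (ih (by omega) (by omega)).trans (hp (i + k) (by omega))

/-- every chain from `p 0` below `p 0 * d ^ k` has fewer than `B` steps -/
def Bd (d : M) (k B : ℕ) : Prop :=
  ∀ (p : ℕ → M) (n : ℕ), Chain p n → p n ∣ p 0 * d ^ k → n < B

theorem chain_list {p : ℕ → M} (n : ℕ) (hp : Chain p n) :
    ∃ l : List M, l.length = n ∧ (∀ x ∈ l, x ≠ 1) ∧ p n = p 0 * l.prod := by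
  induction n with
  | zero => exact ⟨[], rfl, by simp, by simp⟩
  | succ n ih =>
    obtain ⟨l, h1, h2, h3⟩ := ih (fun i hi => hp i (by omega))
    obtain ⟨⟨c, hc⟩, hne⟩ := hp n (by omega)
    refine ⟨l ++ [c], by simp [h1], ?_, ?_⟩
    · intro x hx
      rw [List.mem_append, List.mem_singleton] at hx
      rcases hx with hx | rfl
      · exact h2 x hx
      · rintro rfl
        exact hne (by rw [hc, mul_one])
    · rw [List.prod_append, List.prod_singleton, ← mul_assoc, ← h3, hc]

/-- `D` bounds the number of nontrivial factors of `d` -/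
def Norm (d : M) (D : ℕ) : Prop := ∀ l : List M, (∀ x ∈ l, x ≠ 1) → l.prod = d → l.length ≤ D

theorem IsGar.bd_one (h : IsGar d) {D : ℕ} (hD : Norm d D) : Bd d 1 (D + 1) := by
  intro p n hp hn
  obtain ⟨l, h1, h2, h3⟩ := chain_list n hp
  obtain ⟨c, hc⟩ := hn
  rw [pow_one, h3, mul_assoc] at hc
  have hc' := h.lc _ _ _ hc
  by_cases hc1 : c = 1
  · rw [hc1, mul_one] at hc'
    have := hD l h2 hc'.symm
    omega
  · have := hD (l ++ [c]) (by
      intro x hx
      rw [List.mem_append, List.mem_singleton] at hx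
      rcases hx with hx | rfl
      · exact h2 x hx
      · exact hc1) (by rw [List.prod_append, List.prod_singleton]; exact hc'.symm)
    rw [List.length_append, List.length_singleton] at this
    omega

theorem IsGar.bd_zero (h : IsGar d) : Bd d 0 1 := by
  intro p n hp hn
  by_contra hcon
  have h1 : p 0 ∣ p 1 := (hp 0 (by omega)).1
  have h2 : p 1 ∣ p n := chain_dvd (fun i hi => (hp i hi).1) (by omega) le_rfl
  rw [pow_zero, mul_one] at hn
  exact (hp 0 (by omega)).2 (h.antisymm h1 (h2.trans hn))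

/-- chains of `m` steps each of `d`-length more than `S`, of total `d`-length at most `k` -/
def NoLong (d : M) (k S m : ℕ) : Prop :=
  ∀ p : ℕ → M, (∀ i < m, p i ∣ p (i + 1)) → (∀ i < m, ¬ p (i + 1) ∣ p i * d ^ S) →
    ¬ p m ∣ p 0 * d ^ k

theorem bd_of_noLong {k S m B : ℕ} (hB : Bd d S B) (hm : NoLong d k S m) : Bd d k (B * m) := by
  intro p n hp hn
  by_contra hcon
  push Not at hcon
  have hmono : ∀ i < n, p i ∣ p (i + 1) := fun i hi => (hp i hi).1
  refine hm (fun i => p (B * i)) ?_ ?_ ?_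
  · intro i hi
    refine chain_dvd hmono (Nat.mul_le_mul le_rfl (by omega)) ?_
    exact le_trans (Nat.mul_le_mul le_rfl (by omega)) hcon
  · intro i hi hdiv
    have hle : B * (i + 1) ≤ n := le_trans (Nat.mul_le_mul le_rfl (by omega)) hcon
    have := hB (fun j => p (B * i + j)) B (by
      intro j hj
      have : B * i + j < n := by
        have : B * (i + 1) = B * i + B := by ring
        omega
      exact hp _ this) (by
        have h1 : B * (i + 1) = B * i + B := by ring
        simpa [h1] using hdiv)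
    omega
  · simp only [mul_zero]
    exact (chain_dvd hmono hcon le_rfl).trans hn

/-- the trivial bound -/
theorem IsGar.noLong_trivial (h : IsGar d) {k l B : ℕ} (hB : Bd d l B) :
    NoLong d (k + l) k B := by
  intro p hp hlong htot
  choose J hJ1 hJ2 hJ3 using h.join
  have key := hB (fun i => J (p 0 * d ^ k) (p i)) B ?_ ?_
  · exact lt_irrefl _ key
  · intro i hi
    refine ⟨hJ3 _ _ _ (hJ1 _ _) ((hp i hi).trans (hJ2 _ _)), fun heq => ?_⟩
    have h1 : p (i + 1) ∣ J (p 0 * d ^ k) (p i) := by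
      dsimp only at heq
      rw [heq]
      exact hJ2 _ _
    have h2 : J (p 0 * d ^ k) (p i) ∣ p i * d ^ k := by
      refine hJ3 _ _ _ (h.dvd_mul_pow k (chain_dvd hp (Nat.zero_le i) hi.le)) ?_
      exact Dvd.intro _ rfl
    exact hlong i hi (h1.trans h2)
  · refine hJ3 _ _ _ ?_ ?_
    · have h0 : p 0 * d ^ k ∣ J (p 0 * d ^ k) (p 0) := hJ1 _ _
      exact h0.trans (Dvd.intro _ rfl)
    · refine htot.trans ?_
      rw [pow_add, ← mul_assoc]
      exact h.dvd_mul_pow l (hJ1 _ _)

theorem IsGar.bd_pow (h : IsGar d) {D : ℕ} (hD : Norm d D) (k : ℕ) : Bd d k ((D + 1) ^ k) := by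
  induction k with
  | zero => simpa using h.bd_zero
  | succ k ih =>
    rw [pow_succ]
    exact bd_of_noLong ih (h.noLong_trivial (h.bd_one hD))

/-- iterated joins of `g 1, ..., g n` -/
def bigJ (J : M → M → M) (g : ℕ → M) : ℕ → M
  | 0 => 1
  | n + 1 => J (bigJ J g n) (g (n + 1))

theorem bigJ_le {J : M → M → M} (hJ1 : ∀ a b, a ∣ J a b) (hJ2 : ∀ a b, b ∣ J a b) (g : ℕ → M)
    (n : ℕ) : ∀ i, 1 ≤ i → i ≤ n → g i ∣ bigJ J g n := by
  induction n with
  | zero => intro i h1 h2; omega
  | succ n ih =>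
    intro i h1 h2
    by_cases hi : i = n + 1
    · subst hi
      exact hJ2 _ _
    · exact (ih i h1 (by omega)).trans (hJ1 _ _)

theorem bigJ_min {J : M → M → M} (hJ3 : ∀ a b x, a ∣ x → b ∣ x → J a b ∣ x) (g : ℕ → M)
    (n : ℕ) (x : M) (hx : ∀ i, 1 ≤ i → i ≤ n → g i ∣ x) : bigJ J g n ∣ x := by
  induction n with
  | zero => exact one_dvd _
  | succ n ih =>
    exact hJ3 _ _ _ (ih (fun i h1 h2 => hx i h1 (by omega))) (hx (n + 1) (by omega) le_rfl)

/-- **Nearly equidistant chains are short.**  If `(k - S) * D ≤ S`, there is no chain of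
`D + 1` steps each of `d`-length more than `S` and of total `d`-length at most `k`. -/
theorem IsGar.noLong_near (h : IsGar d) {D : ℕ} (hD : Norm d D) {k S : ℕ}
    (hS : (k - S) * D ≤ S) : NoLong d k S (D + 1) := by
  classical
  intro p hp hlong htot
  choose J hJ1 hJ2 hJ3 using h.join
  have hmono : ∀ {i j : ℕ}, i ≤ j → j ≤ D + 1 → p i ∣ p j := fun hij hj => chain_dvd hp hij hj
  set e := k - S with he
  -- `k > S`
  have hkS : S < k := by
    by_contra hcon
    push Not at hcon
    refine hlong 0 (by omega) ?_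
    exact ((hmono (by omega) le_rfl).trans htot).trans (mul_pow_dvd hcon)
  -- exponents
  set a : ℕ → ℕ := fun j => e * (D + 1 - j) with ha
  set g : ℕ → ℕ → M := fun j i => if i ≤ j then p i * d ^ (a i + 1) else p i * d ^ (a i) with hg
  set X : ℕ → M := fun j => bigJ J (g j) (D + 1) with hX
  have hgle : ∀ j i, p i * d ^ (a i) ∣ g j i := by
    intro j i
    simp only [hg]
    split_ifs
    · exact mul_pow_dvd (by omega)
    · exact dvd_rfl
  have hgmono : ∀ j i, g j i ∣ g (j + 1) i := by
    intro j i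
    by_cases hij : i ≤ j
    · simp only [hg, if_pos hij, if_pos (show i ≤ j + 1 by omega)]
      exact dvd_rfl
    · simp only [hg, if_neg hij]
      split_ifs
      · exact mul_pow_dvd (by omega)
      · exact dvd_rfl
  have hchain : Chain X (D + 1) := by
    intro j hj
    refine ⟨?_, ?_⟩
    · refine bigJ_min hJ3 _ _ _ (fun i h1 h2 => ?_)
      exact (hgmono j i).trans (bigJ_le hJ1 hJ2 _ _ i h1 h2)
    · intro heq
      -- `p (j+1) * d ^ (a (j+1) + 1)` divides `X j`
      have h1 : p (j + 1) * d ^ (a (j + 1) + 1) ∣ X j := by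
        rw [heq]
        have := bigJ_le hJ1 hJ2 (g (j + 1)) (D + 1) (j + 1) (by omega) (by omega)
        simpa only [hg, le_refl, if_true] using this
      -- the exact `d`-length of the step from `p j` to `p (j+1)`
      have hex : ∃ t, p (j + 1) ∣ p j * d ^ t :=
        ⟨k, ((hmono (by omega) le_rfl).trans htot).trans
          (h.dvd_mul_pow k (hmono (Nat.zero_le j) (by omega)))⟩
      set t := Nat.find hex with ht
      have ht1 : p (j + 1) ∣ p j * d ^ t := Nat.find_spec hex
      have htS : S < t := by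
        by_contra hcon
        push Not at hcon
        exact hlong j hj (ht1.trans (mul_pow_dvd hcon))
      -- `X j` divides `p j * d ^ (a (j+1) + t)`
      have h2 : X j ∣ p j * d ^ (a (j + 1) + t) := by
        refine bigJ_min hJ3 _ _ _ (fun i hi1 hi2 => ?_)
        by_cases hij : i ≤ j
        · simp only [hg, if_pos hij]
          refine (h.dvd_mul_pow _ (hmono hij (by omega))).trans (mul_pow_dvd ?_)
          simp only [ha]
          -- e * (D+1-i) + 1 ≤ e * (D+1-(j+1)) + t
          have h3 : D + 1 - i ≤ D := by omega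
          have h4 : e * (D + 1 - i) ≤ e * D := Nat.mul_le_mul le_rfl h3
          omega
        · simp only [hg, if_neg hij]
          by_cases hij' : i = j + 1
          · subst hij'
            have := h.dvd_mul_pow (a (j + 1)) ht1
            refine this.trans ?_
            rw [mul_assoc, ← pow_add, add_comm t]
          · -- i > j + 1
            have h5 : p i ∣ p j * d ^ k :=
              ((hmono hi2 le_rfl).trans htot).trans
                (h.dvd_mul_pow k (hmono (Nat.zero_le j) (by omega)))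
            refine (h.dvd_mul_pow (a i) h5).trans ?_
            rw [mul_assoc, ← pow_add]
            refine mul_pow_dvd ?_
            simp only [ha]
            have h6 : D + 1 - (j + 1) = (D + 1 - i) + (i - (j + 1)) := by omega
            have h7 : e * (D + 1 - i) + e ≤ e * (D + 1 - (j + 1)) := by
              rw [h6, mul_add]
              have : e * 1 ≤ e * (i - (j + 1)) := Nat.mul_le_mul le_rfl (by omega)
              omega
            omega
      have h3 := h1.trans h2
      -- cancel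
      have h4 : p (j + 1) ∣ p j * d ^ (t - 1) := by
        apply h.of_dvd_mul_pow (a (j + 1) + 1)
        refine h3.trans ?_
        rw [mul_assoc, ← pow_add]
        exact mul_pow_dvd (by omega)
      exact Nat.find_min hex (show t - 1 < t by omega) h4
  have hend : X (D + 1) ∣ X 0 * d ^ 1 := by
    refine bigJ_min hJ3 _ _ _ (fun i h1 h2 => ?_)
    simp only [hg, if_pos h2]
    have h3 : p i * d ^ (a i) ∣ X 0 :=
      (hgle 0 i).trans (bigJ_le hJ1 hJ2 (g 0) (D + 1) i h1 h2)
    have h4 := h.dvd_mul_pow 1 h3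
    rwa [mul_assoc, ← pow_add] at h4
  have := h.bd_one hD X (D + 1) hchain hend
  omega

/-- the main recursion -/
theorem IsGar.bd_rec (h : IsGar d) {D : ℕ} (hD : Norm d D) {k S B : ℕ}
    (hS : (k - S) * D ≤ S) (hB : Bd d S B) : Bd d k (B * (D + 1)) :=
  bd_of_noLong hB (h.noLong_near hD hS)

end Pool.Agent.H72R2.Gar
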