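import Mathlib

set_option autoImplicit false

/-!
The universal Grigorchuk group is not finitely presented.
-/

namespace Pool.Agent.H72R2.UGrig

abbrev F4 := FreeGroup (Fin 4)

/-- section of the letter s at the vertex e, for the digit i -/
def sl (i : Fin 3) (s : Fin 4) (e : Bool) : F4 :=
  if s = 0 then 1 else if e then FreeGroup.of s
    else if i.val + s.val ≠ 3 then FreeGroup.of 0 else 1

def stp (i : Fin 3) (s : Fin 4) : Equiv.Perm (Bool × F4) where
  toFun p := (if s = 0 then !p.1 else p.1, sl i s p.1 * p.2)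
  invFun p := (if s = 0 then !p.1 else p.1, (sl i s p.1)⁻¹ * p.2)
  left_inv p := by
    rcases p with ⟨e, x⟩
    by_cases h : s = 0
    · simp [h, sl]
    · simp [h]
  right_inv p := by
    rcases p with ⟨e, x⟩
    by_cases h : s = 0
    · simp [h, sl]
    · simp [h]

/-- the wreath recursion for the digit i -/
def D (i : Fin 3) : F4 →* Equiv.Perm (Bool × F4) := FreeGroup.lift (stp i)

theorem D_of (i : Fin 3) (s : Fin 4) : D i (FreeGroup.of s) = stp i s := by
  simp [D]

theorem D_right (i : Fin 3) (w : F4) : ∀ (e : Bool) (x y : F4),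
    D i w (e, x * y) = ((D i w (e, x)).1, (D i w (e, x)).2 * y) := by
  induction w using FreeGroup.induction_on with
  | C1 => intro e x y; simp
  | of s => intro e x y; rw [D_of]; simp [stp, mul_assoc]
  | inv_of s _ =>
    intro e x y
    rw [map_inv, D_of]
    show (stp i s).symm _ = _
    change (_, _) = (_, _)
    simp [stp, mul_assoc]

  | mul u v hu hv =>
    intro e x y
    rw [map_mul, Equiv.Perm.mul_apply, Equiv.Perm.mul_apply, hv, hu]

def per (i : Fin 3) (w : F4) (e : Bool) : Bool := (D i w (e, 1)).1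
def sec (i : Fin 3) (w : F4) (e : Bool) : F4 := (D i w (e, 1)).2

theorem D_eq (i : Fin 3) (w : F4) (e : Bool) (x : F4) :
    D i w (e, x) = (per i w e, sec i w e * x) := by
  have := D_right i w e 1 x
  rw [one_mul] at this
  exact this

theorem per_mul (i : Fin 3) (u v : F4) (e : Bool) : per i (u * v) e = per i u (per i v e) := by
  simp only [per, map_mul, Equiv.Perm.mul_apply]
  rw [D_eq i v e 1, D_eq i u, D_eq]

theorem sec_mul (i : Fin 3) (u v : F4) (e : Bool) :
    sec i (u * v) e = sec i u (per i v e) * sec i v e := by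
  have : D i (u * v) (e, 1) = D i u (D i v (e, 1)) := by simp
  simp only [D_eq, mul_one] at this
  exact (Prod.ext_iff.1 this).2

theorem per_one (i : Fin 3) (e : Bool) : per i 1 e = e := by simp [per]
theorem sec_one (i : Fin 3) (e : Bool) : sec i 1 e = 1 := by simp [sec]
theorem per_of (i : Fin 3) (s : Fin 4) (e : Bool) :
    per i (FreeGroup.of s) e = if s = 0 then !e else e := by simp [per, D_of, stp]
theorem sec_of (i : Fin 3) (s : Fin 4) (e : Bool) : sec i (FreeGroup.of s) e = sl i s e := by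
  simp [sec, D_of, stp]

theorem per_inv (i : Fin 3) (u : F4) (e : Bool) : per i u (per i u⁻¹ e) = e := by
  rw [← per_mul, mul_inv_cancel, per_one]

theorem per_inv' (i : Fin 3) (u : F4) (e : Bool) : per i u⁻¹ (per i u e) = e := by
  rw [← per_mul, inv_mul_cancel, per_one]

theorem sec_inv (i : Fin 3) (u : F4) (e : Bool) : sec i u⁻¹ e = (sec i u (per i u⁻¹ e))⁻¹ := by
  have := sec_mul i u u⁻¹ e
  rw [mul_inv_cancel, sec_one] at this
  exact eq_inv_of_mul_eq_one_right this.symm

/-- elements which fix the first level and whose sections for the digit 0 lie in `M` -/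
def T (M : Subgroup F4) : Subgroup F4 where
  carrier := {w | ∀ e, per 0 w e = e ∧ sec 0 w e ∈ M}
  one_mem' := by intro e; simp [per_one, sec_one, M.one_mem]
  mul_mem' := by
    intro u v hu hv e
    refine ⟨by rw [per_mul, (hv e).1, (hu e).1], ?_⟩
    rw [sec_mul, (hv e).1]
    exact M.mul_mem (hu e).2 (hv e).2
  inv_mem' := by
    intro u hu e
    have h : per 0 u⁻¹ e = e := by
      have := per_inv' 0 u e
      rwa [(hu e).1] at this
    refine ⟨h, ?_⟩
    rw [sec_inv, h]
    exact M.inv_mem (hu e).2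

theorem mem_T (M : Subgroup F4) (w : F4) : w ∈ T M ↔ ∀ e, per 0 w e = e ∧ sec 0 w e ∈ M := Iff.rfl

theorem T_normal (M : Subgroup F4) (hM : M.Normal) : (T M).Normal := by
  constructor
  intro u hu g e
  rw [mem_T] at hu
  have h1 : per 0 (g * u * g⁻¹) e = e := by
    rw [per_mul, per_mul, (hu _).1, per_inv]
  refine ⟨h1, ?_⟩
  rw [sec_mul, sec_mul, sec_inv, (hu _).1]
  exact hM.conj_mem _ (hu _).2 _

def a : F4 := FreeGroup.of 0
def b : F4 := FreeGroup.of 1
def c : F4 := FreeGroup.of 2
def d : F4 := FreeGroup.of 3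

/-- the relations -/
def rels : Set F4 := {a * a, b * b, c * c, d * d, b * c * d}

def R0 : Subgroup F4 := Subgroup.normalClosure rels

instance : R0.Normal := Subgroup.normalClosure_normal

theorem R0_le_ker {G : Type} [Group G] (f : F4 →* G) (ha : f a * f a = 1) (hb : f b * f b = 1)
    (hc : f c * f c = 1) (hd : f d * f d = 1) (hbcd : f b * f c * f d = 1) : R0 ≤ f.ker := by
  apply Subgroup.normalClosure_le_normal
  rintro x (rfl | rfl | rfl | rfl | rfl) <;> simp [MonoidHom.mem_ker, *]

theorem rel_mem {x : F4} (h : x ∈ rels) : x ∈ R0 := Subgroup.subset_normalClosure h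

theorem aa_mem : a * a ∈ R0 := rel_mem (by simp [rels])
theorem bb_mem : b * b ∈ R0 := rel_mem (by simp [rels])
theorem cc_mem : c * c ∈ R0 := rel_mem (by simp [rels])
theorem dd_mem : d * d ∈ R0 := rel_mem (by simp [rels])
theorem bcd_mem : b * c * d ∈ R0 := rel_mem (by simp [rels])

@[simp] theorem per_a (i : Fin 3) (e : Bool) : per i a e = !e := by simp [a, per_of]
@[simp] theorem per_b (i : Fin 3) (e : Bool) : per i b e = e := by simp [b, per_of]
@[simp] theorem per_c (i : Fin 3) (e : Bool) : per i c e = e := by simp [c, per_of]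
@[simp] theorem per_d (i : Fin 3) (e : Bool) : per i d e = e := by simp [d, per_of]
@[simp] theorem sec_a (i : Fin 3) (e : Bool) : sec i a e = 1 := by simp [a, sec_of, sl]
@[simp] theorem sec_b_t (i : Fin 3) : sec i b true = b := by simp [b, sec_of, sl]
@[simp] theorem sec_c_t (i : Fin 3) : sec i c true = c := by simp [c, sec_of, sl]
@[simp] theorem sec_d_t (i : Fin 3) : sec i d true = d := by simp [d, sec_of, sl]
theorem sec_b_f (i : Fin 3) : sec i b false = if i = 2 then 1 else a := by
  fin_cases i <;> simp [b, a, sec_of, sl]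
theorem sec_c_f (i : Fin 3) : sec i c false = if i = 1 then 1 else a := by
  fin_cases i <;> simp [c, a, sec_of, sl]
theorem sec_d_f (i : Fin 3) : sec i d false = if i = 0 then 1 else a := by
  fin_cases i <;> simp [d, a, sec_of, sl]

theorem R0_le_T : R0 ≤ T R0 := by
  have := T_normal R0 inferInstance
  apply Subgroup.normalClosure_le_normal
  rintro x (rfl | rfl | rfl | rfl | rfl) <;> intro e <;> cases e <;>
    simp [per_mul, sec_mul, sec_b_f, sec_c_f, sec_d_f, aa_mem, bb_mem, cc_mem, dd_mem, bcd_mem,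
      R0.one_mem]


/-! ### contraction -/

/-- nucleus -/
def Nuc : Set F4 := {1, a, b, c, d}

/-- all sections at level `J` (for the digit 0) are in the nucleus, modulo `R0` -/
def C : ℕ → F4 → Prop
  | 0, w => ∃ n ∈ Nuc, (QuotientGroup.mk w : F4 ⧸ R0) = QuotientGroup.mk n
  | (J + 1), w => ∀ e, C J (sec 0 w e)

theorem mk_eq_of_mem {x : F4} (h : x ∈ R0) : (QuotientGroup.mk x : F4 ⧸ R0) = 1 :=
  (QuotientGroup.eq_one_iff x).2 h

/-- sections depend only on the class modulo R0 -/
theorem sec_congr {u v : F4} (h : (QuotientGroup.mk u : F4 ⧸ R0) = QuotientGroup.mk v) (e : Bool) :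
    per 0 u e = per 0 v e ∧
      (QuotientGroup.mk (sec 0 u e) : F4 ⧸ R0) = QuotientGroup.mk (sec 0 v e) := by
  have h1 : u⁻¹ * v ∈ R0 := QuotientGroup.eq.1 h
  have h2 := R0_le_T h1
  obtain ⟨z, hz, rfl⟩ : ∃ z, z ∈ R0 ∧ v = u * z := ⟨u⁻¹ * v, h1, by group⟩
  have h3 := R0_le_T hz e
  constructor
  · rw [per_mul, h3.1]
  · rw [sec_mul, h3.1]
    apply QuotientGroup.eq.2
    simpa using h3.2

theorem C_congr {J : ℕ} : ∀ {u v : F4}, (QuotientGroup.mk u : F4 ⧸ R0) = QuotientGroup.mk v →
    C J u → C J v := by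
  induction J with
  | zero => intro u v h hu; obtain ⟨n, hn, h'⟩ := hu; exact ⟨n, hn, h ▸ h'⟩
  | succ J ih => intro u v h hu e; exact ih (sec_congr h e).2 (hu e)

theorem ma : (QuotientGroup.mk a : F4 ⧸ R0) * QuotientGroup.mk a = 1 := mk_eq_of_mem aa_mem
theorem mb : (QuotientGroup.mk b : F4 ⧸ R0) * QuotientGroup.mk b = 1 := mk_eq_of_mem bb_mem
theorem mc : (QuotientGroup.mk c : F4 ⧸ R0) * QuotientGroup.mk c = 1 := mk_eq_of_mem cc_mem
theorem md : (QuotientGroup.mk d : F4 ⧸ R0) * QuotientGroup.mk d = 1 := mk_eq_of_mem dd_mem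
theorem mbcd : (QuotientGroup.mk b : F4 ⧸ R0) * QuotientGroup.mk c * QuotientGroup.mk d = 1 :=
  mk_eq_of_mem bcd_mem

section klein
variable {G : Type} [Group G] {x y z : G} (hx : x * x = 1) (hy : y * y = 1) (hz : z * z = 1)
  (h : x * y * z = 1)
include hx hy hz h

theorem k_xy : x * y = z := by
  rw [eq_inv_of_mul_eq_one_left h]; exact inv_eq_of_mul_eq_one_left hz
theorem k_yz : y * z = x := by
  have : x * (y * z) = 1 := by rw [← mul_assoc]; exact h
  rw [eq_inv_of_mul_eq_one_right this]; exact inv_eq_of_mul_eq_one_left hx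
theorem k_yx : y * x = z := by
  have h1 := k_xy hx hy hz h
  have hxi : x⁻¹ = x := inv_eq_of_mul_eq_one_left hx
  have hyi : y⁻¹ = y := inv_eq_of_mul_eq_one_left hy
  have hzi : z⁻¹ = z := inv_eq_of_mul_eq_one_left hz
  have : (x * y)⁻¹ = z⁻¹ := by rw [h1]
  rwa [mul_inv_rev, hxi, hyi, hzi] at this
theorem k_zy : z * y = x := by
  have h1 := k_yz hx hy hz h
  have hxi : x⁻¹ = x := inv_eq_of_mul_eq_one_left hx
  have hyi : y⁻¹ = y := inv_eq_of_mul_eq_one_left hy
  have hzi : z⁻¹ = z := inv_eq_of_mul_eq_one_left hz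
  have : (y * z)⁻¹ = x⁻¹ := by rw [h1]
  rwa [mul_inv_rev, hxi, hyi, hzi] at this
theorem k_xz : x * z = y := by
  rw [← k_xy hx hy hz h, ← mul_assoc, hx, one_mul]
theorem k_zx : z * x = y := by
  rw [← k_yx hx hy hz h, mul_assoc, hx, mul_one]
end klein

theorem mem_Nuc_iff (w : F4) : w ∈ Nuc ↔ w = 1 ∨ w = a ∨ w = b ∨ w = c ∨ w = d := Iff.rfl

theorem C_zero_mul {u v : F4} (hu : C 0 u) (hv : C 0 v) : C 1 (u * v) := by
  obtain ⟨m, hm, h1⟩ := hu
  obtain ⟨n, hn, h2⟩ := hv
  have key : C 1 (m * n) := by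
    intro e
    show ∃ k ∈ Nuc, _
    have hb := k_xy mb mc md mbcd
    have q1 := k_xy mb mc md mbcd
    have q2 := k_yz mb mc md mbcd
    have q3 := k_yx mb mc md mbcd
    have q4 := k_zy mb mc md mbcd
    have q5 := k_xz mb mc md mbcd
    have q6 := k_zx mb mc md mbcd
    rw [sec_mul]
    rw [mem_Nuc_iff] at hm hn
    rcases hm with rfl | rfl | rfl | rfl | rfl <;> rcases hn with rfl | rfl | rfl | rfl | rfl <;>
      cases e <;>
      simp only [sec_one, per_one, sec_a, per_a, sec_b_t, sec_c_t, sec_d_t, sec_b_f, sec_c_f,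
        sec_d_f, per_b, per_c, per_d, mul_one, one_mul, QuotientGroup.mk_mul, ma, mb, mc, md, q1,
        q2, q3, q4, q5, q6, Bool.not_true, Bool.not_false, if_true, reduceIte, Fin.reduceEq,
        mul_assoc] <;>
      first
        | exact ⟨1, by simp [mem_Nuc_iff], rfl⟩
        | exact ⟨a, by simp [mem_Nuc_iff], rfl⟩
        | exact ⟨b, by simp [mem_Nuc_iff], rfl⟩
        | exact ⟨c, by simp [mem_Nuc_iff], rfl⟩
        | exact ⟨d, by simp [mem_Nuc_iff], rfl⟩
  refine C_congr ?_ key
  rw [QuotientGroup.mk_mul, QuotientGroup.mk_mul, h1, h2]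

theorem C_mul {J : ℕ} : ∀ {u v : F4}, C J u → C J v → C (J + 1) (u * v) := by
  induction J with
  | zero => intro u v; exact C_zero_mul
  | succ J ih =>
    intro u v hu hv e
    rw [sec_mul]
    exact ih (hu _) (hv _)

theorem C_one (J : ℕ) : C J 1 := by
  induction J with
  | zero => exact ⟨1, by simp [mem_Nuc_iff], rfl⟩
  | succ J ih => intro e; rw [sec_one]; exact ih

theorem C_succ {J : ℕ} {u : F4} (h : C J u) : C (J + 1) u := by
  have := C_mul h (C_one J)
  rwa [mul_one] at this

theorem C_mono {J K : ℕ} (hJ : J ≤ K) {u : F4} (h : C J u) : C K u := by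
  induction K, hJ using Nat.le_induction with
  | base => exact h
  | succ K _ ih => exact C_succ ih

theorem C_of (s : Fin 4) : C 0 (FreeGroup.of s) := by
  refine ⟨FreeGroup.of s, ?_, rfl⟩
  rw [mem_Nuc_iff]
  fin_cases s <;> simp [a, b, c, d]

theorem exists_C (w : F4) : ∃ J, C J w := by
  induction w using FreeGroup.induction_on with
  | C1 => exact ⟨0, C_one 0⟩
  | of s => exact ⟨0, C_of s⟩
  | inv_of s _ =>
    refine ⟨0, C_congr ?_ (C_of s)⟩
    rw [QuotientGroup.mk_inv]
    refine eq_inv_of_mul_eq_one_left ?_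
    fin_cases s
    · exact ma
    · exact mb
    · exact mc
    · exact md
  | mul u v hu hv =>
    obtain ⟨J, hJ⟩ := hu
    obtain ⟨K, hK⟩ := hv
    exact ⟨max J K + 1, C_mul (C_mono (le_max_left _ _) hJ) (C_mono (le_max_right _ _) hK)⟩

/-- iterated `T` -/
def TJ : ℕ → Subgroup F4
  | 0 => R0
  | (J + 1) => T (TJ J)

theorem TJ_normal (J : ℕ) : (TJ J).Normal := by
  induction J with
  | zero => exact inferInstanceAs R0.Normal
  | succ J ih => exact T_normal _ ih

/-! ### the groups G_ω -/

/-- the action of a letter on binary sequences -/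
def act (ω : ℕ → Fin 3) (s : Fin 4) (v : ℕ → Bool) : ℕ → Bool :=
  if s = 0 then Function.update v 0 (!v 0)
  else fun m =>
    if 0 < m ∧ v (m - 1) = false ∧ (∀ j < m - 1, v j = true) ∧
        (ω (m - 1)).val + s.val ≠ 3
    then !v m else v m

def cns (e : Bool) (v : ℕ → Bool) : ℕ → Bool
  | 0 => e
  | (n + 1) => v n

def sh {α : Type} (ω : ℕ → α) : ℕ → α := fun n => ω (n + 1)

theorem cns_eta (v : ℕ → Bool) : cns (v 0) (sh v) = v := by
  funext n; cases n <;> rfl

theorem act_a (ω : ℕ → Fin 3) (e : Bool) (v : ℕ → Bool) :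
    act ω 0 (cns e v) = cns (!e) v := by
  funext n
  cases n with
  | zero => simp [act, cns]
  | succ n => simp [act, cns]

theorem act_t (ω : ℕ → Fin 3) (s : Fin 4) (hs : s ≠ 0) (v : ℕ → Bool) :
    act ω s (cns true v) = cns true (act (sh ω) s v) := by
  funext n
  rcases n with _ | n
  · simp [act, cns, hs]
  · rcases n with _ | n
    · simp [act, cns, hs]
    · have key : (∀ j < n + 1, cns true v j = true) ↔ (∀ j < n, v j = true) := by
        constructor
        · intro h j hj; exact h (j + 1) (by omega)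
        · intro h j hj
          cases j with
          | zero => rfl
          | succ j => exact h j (by omega)
      have e1 : act ω s (cns true v) (n + 1 + 1) =
          (if 0 < n + 1 + 1 ∧ cns true v (n + 1) = false ∧ (∀ j < n + 1, cns true v j = true) ∧
            (ω (n + 1)).val + s.val ≠ 3 then !cns true v (n + 1 + 1)
            else cns true v (n + 1 + 1)) := by
        unfold act; rw [if_neg hs]; rfl
      have e2 : cns true (act (sh ω) s v) (n + 1 + 1) =
          (if 0 < n + 1 ∧ v n = false ∧ (∀ j < n, v j = true) ∧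
            (ω (n + 1)).val + s.val ≠ 3 then !v (n + 1) else v (n + 1)) := by
        show act (sh ω) s v (n + 1) = _
        unfold act; rw [if_neg hs]; rfl
      rw [e1, e2]
      apply if_congr
      · rw [key]
        simp only [Nat.succ_pos, true_and]
        rfl
      · rfl
      · rfl

theorem act_f (ω : ℕ → Fin 3) (s : Fin 4) (hs : s ≠ 0) (v : ℕ → Bool) :
    act ω s (cns false v) = cns false (if (ω 0).val + s.val ≠ 3 then act (sh ω) 0 v else v) := by
  funext n
  rcases n with _ | n
  · simp [act, cns, hs]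
  · rcases n with _ | n
    · simp only [act, hs, if_false, cns]
      by_cases h : (ω 0).val + s.val = 3
      · simp [h]
      · simp [h]
    · have hf : ¬ (∀ j < n + 1, cns false v j = true) := by
        intro h
        have := h 0 (by omega)
        simp [cns] at this
      have : act ω s (cns false v) (n + 1 + 1) = v (n + 1) := by
        simp only [act, hs, if_false, Nat.add_sub_cancel]
        rw [if_neg]
        · rfl
        · rintro ⟨_, _, h, _⟩; exact hf h
      rw [this]
      by_cases h : (ω 0).val + s.val = 3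
      · simp [h, cns]
      · simp [h, cns, act]

theorem act_act (ω : ℕ → Fin 3) (s : Fin 4) (v : ℕ → Bool) : act ω s (act ω s v) = v := by
  by_cases hs : s = 0
  · subst hs
    rw [← cns_eta v, act_a, act_a, Bool.not_not]
  · -- position wise
    suffices h : ∀ (n : ℕ) (ω : ℕ → Fin 3) (v : ℕ → Bool), act ω s (act ω s v) n = v n by
      funext n; exact h n ω v
    intro n
    induction n with
    | zero => intro ω v; simp [act, hs]
    | succ n ih =>
      intro ω v
      rw [← cns_eta v]
      cases v 0 with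
      | false =>
        rw [act_f _ _ hs]
        by_cases h : (ω 0).val + s.val = 3
        · simp only [h, ne_eq, not_true_eq_false, if_false]
          rw [act_f _ _ hs]; simp [h]
        · simp only [h, ne_eq, not_false_eq_true, if_true]
          rw [act_f _ _ hs]; simp only [h, ne_eq, not_false_eq_true, if_true]
          rw [← cns_eta (sh v), act_a, act_a, Bool.not_not]
      | true =>
        rw [act_t _ _ hs, act_t _ _ hs]
        exact ih _ _

noncomputable def actP (ω : ℕ → Fin 3) (s : Fin 4) : Equiv.Perm (ℕ → Bool) :=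
  ⟨act ω s, act ω s, act_act ω s, act_act ω s⟩

noncomputable def Phi (ω : ℕ → Fin 3) : F4 →* Equiv.Perm (ℕ → Bool) := FreeGroup.lift (actP ω)

theorem Phi_of (ω : ℕ → Fin 3) (s : Fin 4) : Phi ω (FreeGroup.of s) = actP ω s := by simp [Phi]

theorem Phi_cns (w : F4) : ∀ (ω : ℕ → Fin 3) (e : Bool) (v : ℕ → Bool),
    Phi ω w (cns e v) = cns (per (ω 0) w e) (Phi (sh ω) (sec (ω 0) w e) v) := by
  induction w using FreeGroup.induction_on with
  | C1 => intro ω e v; simp [per_one, sec_one]
  | of s =>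
    intro ω e v
    rw [Phi_of, per_of, sec_of]
    show act ω s _ = _
    by_cases hs : s = 0
    · subst hs; rw [act_a]; simp [sl]
    · cases e with
      | true => rw [act_t _ _ hs]; simp [hs, sl, Phi_of]; rfl
      | false =>
        rw [act_f _ _ hs]
        by_cases h : (ω 0).val + s.val = 3
        · simp [hs, sl, h]
        · simp [hs, sl, h, Phi_of]; rfl
  | inv_of s ih =>
    intro ω e v
    change ∀ (ω : ℕ → Fin 3) (e : Bool) (v : ℕ → Bool),
      Phi ω (FreeGroup.of s) (cns e v) = cns (per (ω 0) (FreeGroup.of s) e) (Phi (sh ω)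
        (sec (ω 0) (FreeGroup.of s) e) v) at ih
    change Phi ω (FreeGroup.of s)⁻¹ _ = cns (per (ω 0) (FreeGroup.of s)⁻¹ e) (Phi (sh ω)
      (sec (ω 0) (FreeGroup.of s)⁻¹ e) v)
    rw [map_inv, Equiv.Perm.inv_eq_iff_eq, ih, per_inv, sec_inv, map_inv]
    simp
  | mul x y hx hy =>
    intro ω e v
    rw [map_mul, Equiv.Perm.mul_apply, hy, hx, per_mul, sec_mul, map_mul, Equiv.Perm.mul_apply]

theorem Phi_eq_one_iff (ω : ℕ → Fin 3) (w : F4) :
    Phi ω w = 1 ↔ ∀ e, per (ω 0) w e = e ∧ Phi (sh ω) (sec (ω 0) w e) = 1 := by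
  constructor
  · intro h e
    have h1 : ∀ v, cns (per (ω 0) w e) (Phi (sh ω) (sec (ω 0) w e) v) = cns e v := by
      intro v
      rw [← Phi_cns, h]; rfl
    refine ⟨congrFun (h1 (fun _ => true)) 0, ?_⟩
    apply Equiv.ext
    intro v
    funext n
    exact congrFun (h1 v) (n + 1)
  · intro h
    apply Equiv.ext
    intro v
    rw [← cns_eta v, Phi_cns, (h _).1, (h _).2]
    rfl

/-! ### from N to TJ -/

/-- the sequence 012012... -/
def om3 : ℕ → Fin 3 := fun n => ⟨n % 3, Nat.mod_lt _ (by norm_num)⟩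

/-- `J` zeros followed by `012012...` -/
def omJ : ℕ → ℕ → Fin 3
  | 0 => om3
  | (J + 1) => fun n => match n with
    | 0 => 0
    | (n + 1) => omJ J n

theorem sh_omJ (J : ℕ) : sh (omJ (J + 1)) = omJ J := by funext n; rfl

theorem act_a_ne (ω : ℕ → Fin 3) : actP ω 0 ≠ 1 := by
  intro h
  have h1 : act ω 0 (cns true (fun _ => true)) = cns true (fun _ => true) := by
    have := Equiv.ext_iff.1 h (cns true (fun _ => true))
    exact this
  rw [act_a] at h1
  have := congrFun h1 0
  simp [cns] at this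

/-- if some digit is not the one at which the letter s is trivial, then s acts nontrivially -/
theorem act_s_ne (s : Fin 4) (hs : s ≠ 0) (n : ℕ) : ∀ (ω : ℕ → Fin 3), (ω n).val + s.val ≠ 3 →
    actP ω s ≠ 1 := by
  induction n with
  | zero =>
    intro ω h h1
    have h2 : act ω s (cns false (cns true (fun _ => true))) =
      cns false (cns true (fun _ => true)) := by
      have := Equiv.ext_iff.1 h1 (cns false (cns true (fun _ => true)))
      exact this
    rw [act_f _ _ hs, if_pos h, act_a] at h2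
    have := congrFun h2 1
    simp [cns] at this
  | succ n ih =>
    intro ω h h1
    apply ih (sh ω) h
    apply Equiv.ext
    intro v
    have h2 : act ω s (cns true v) = cns true v := by
      have := Equiv.ext_iff.1 h1 (cns true v)
      exact this
    rw [act_t _ _ hs] at h2
    funext m
    exact congrFun h2 (m + 1)

theorem Phi_R0 (ω : ℕ → Fin 3) : R0 ≤ (Phi ω).ker := by
  have hg : ∀ s, actP ω s * actP ω s = 1 := by
    intro s; apply Equiv.ext; intro v; exact act_act ω s v
  apply R0_le_ker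
  · show Phi ω (FreeGroup.of 0) * _ = 1; rw [a, Phi_of]; exact hg 0
  · show Phi ω (FreeGroup.of 1) * _ = 1; rw [b, Phi_of]; exact hg 1
  · show Phi ω (FreeGroup.of 2) * _ = 1; rw [c, Phi_of]; exact hg 2
  · show Phi ω (FreeGroup.of 3) * _ = 1; rw [d, Phi_of]; exact hg 3
  · -- bcd acts trivially
    suffices h : ∀ (n : ℕ) (ω : ℕ → Fin 3) (v : ℕ → Bool), Phi ω (b * c * d) v n = v n by
      rw [← map_mul, ← map_mul]
      apply Equiv.ext; intro v; funext n; exact h n ω v
    intro n
    induction n with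
    | zero =>
      intro ω v
      rw [← cns_eta v, Phi_cns]
      simp [per_mul, cns]
    | succ n ih =>
      intro ω v
      rw [← cns_eta v, Phi_cns]
      show Phi (sh ω) _ (sh v) n = sh v n
      cases v 0 with
      | true =>
        have : sec (ω 0) (b * c * d) true = b * c * d := by simp [sec_mul]
        rw [this]; exact ih _ _
      | false =>
        have haa : Phi (sh ω) (a * a) = 1 := by
          rw [map_mul, a, Phi_of]; apply Equiv.ext; intro v
          show act (sh ω) 0 (act (sh ω) 0 v) = v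
          exact act_act _ _ v
        have : Phi (sh ω) (sec (ω 0) (b * c * d) false) = 1 := by
          generalize hi : ω 0 = i
          fin_cases i <;> simp [sec_mul, sec_b_f, sec_c_f, sec_d_f] <;> simpa using haa
        rw [this]; rfl

theorem Phi_congr (ω : ℕ → Fin 3) {u v : F4} (h : (QuotientGroup.mk u : F4 ⧸ R0) = QuotientGroup.mk v) :
    Phi ω u = Phi ω v := by
  have h1 : u⁻¹ * v ∈ R0 := QuotientGroup.eq.1 h
  have h2 := Phi_R0 ω h1
  rw [MonoidHom.mem_ker, map_mul, map_inv] at h2
  exact (inv_mul_eq_one.1 h2)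

theorem mem_TJ_of (J : ℕ) : ∀ (w : F4), C J w → Phi (omJ J) w = 1 → w ∈ TJ J := by
  induction J with
  | zero =>
    intro w hC h
    obtain ⟨n, hn, h1⟩ := hC
    have h2 : Phi om3 n = 1 := by rw [← Phi_congr om3 h1]; exact h
    have : n = 1 := by
      rw [mem_Nuc_iff] at hn
      rcases hn with rfl | rfl | rfl | rfl | rfl
      · rfl
      · exact absurd h2 (by rw [a, Phi_of]; exact act_a_ne _)
      · exact absurd h2 (by rw [b, Phi_of]; exact act_s_ne 1 (by decide) 0 _ (by decide))
      · exact absurd h2 (by rw [c, Phi_of]; exact act_s_ne 2 (by decide) 0 _ (by decide))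
      · exact absurd h2 (by rw [d, Phi_of]; exact act_s_ne 3 (by decide) 1 _ (by decide))
    subst this
    show w ∈ R0
    exact (QuotientGroup.eq_one_iff w).1 h1
  | succ J ih =>
    intro w hC h e
    rw [Phi_eq_one_iff] at h
    obtain ⟨h1, h2⟩ := h e
    exact ⟨h1, ih _ (hC e) (by rw [← sh_omJ]; exact h2)⟩

/-! ### the witnesses -/

/-- lift to the second coordinate, digit 0 -/
def tau : F4 →* F4 := FreeGroup.lift (fun s => if s = 0 then a * b * a else FreeGroup.of s)
/-- the first coordinate of the lift -/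
def rho : F4 →* F4 := FreeGroup.lift (fun s => if s = 0 then b else if s = 3 then 1 else a)

@[simp] theorem tau_a : tau a = a * b * a := by simp [tau, a]
@[simp] theorem tau_b : tau b = b := by simp [tau, b]
@[simp] theorem tau_c : tau c = c := by simp [tau, c]
@[simp] theorem tau_d : tau d = d := by simp [tau, d]
@[simp] theorem rho_a : rho a = b := by simp [rho, a]
@[simp] theorem rho_b : rho b = a := by simp [rho, b]
@[simp] theorem rho_c : rho c = a := by simp [rho, c]
@[simp] theorem rho_d : rho d = 1 := by simp [rho, d]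

theorem tau_sec (w : F4) : ∀ e, per 0 (tau w) e = e ∧
    sec 0 (tau w) e = if e then w else rho w := by
  induction w using FreeGroup.induction_on with
  | C1 => intro e; simp [per_one, sec_one]
  | of s =>
    intro e
    fin_cases s
    · change per 0 (tau a) e = e ∧ sec 0 (tau a) e = if e then a else rho a
      cases e <;> simp [per_mul, sec_mul, sec_b_f]
    · change per 0 (tau b) e = e ∧ sec 0 (tau b) e = if e then b else rho b
      cases e <;> simp [per_mul, sec_mul, sec_b_f]
    · change per 0 (tau c) e = e ∧ sec 0 (tau c) e = if e then c else rho c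
      cases e <;> simp [per_mul, sec_mul, sec_c_f]
    · change per 0 (tau d) e = e ∧ sec 0 (tau d) e = if e then d else rho d
      cases e <;> simp [per_mul, sec_mul, sec_d_f]
  | inv_of s ih =>
    intro e
    change ∀ e, per 0 (tau (FreeGroup.of s)) e = e ∧
      sec 0 (tau (FreeGroup.of s)) e = if e then (FreeGroup.of s) else rho (FreeGroup.of s) at ih
    change per 0 (tau (FreeGroup.of s)⁻¹) e = e ∧
      sec 0 (tau (FreeGroup.of s)⁻¹) e = if e then (FreeGroup.of s)⁻¹ else rho (FreeGroup.of s)⁻¹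
    have h1 : per 0 (tau (FreeGroup.of s)⁻¹) e = e := by
      have := per_inv' 0 (tau (FreeGroup.of s)) e
      rw [(ih e).1] at this
      rwa [map_inv]
    refine ⟨h1, ?_⟩
    rw [map_inv] at h1 ⊢
    rw [sec_inv, h1, (ih e).2]
    cases e <;> simp
  | mul x y hx hy =>
    intro e
    rw [map_mul]
    refine ⟨by rw [per_mul, (hy e).1, (hx e).1], ?_⟩
    rw [sec_mul, (hy e).1, (hx e).2, (hy e).2]
    cases e <;> simp

/-- u3 -/
def u3 : ℕ → F4
  | 0 => (a * d) ^ 4
  | (J + 1) => tau (u3 J)

def u1 (J : ℕ) : F4 := (a * c) ^ (2 ^ (J + 2))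
def u2 (J : ℕ) : F4 := (a * b) ^ (2 ^ (J + 2))

/-- commutator -/
def cm {G : Type} [Group G] (x y : G) : G := x * y * x⁻¹ * y⁻¹

theorem map_cm {G H : Type} [Group G] [Group H] (f : G →* H) (x y : G) :
    f (cm x y) = cm (f x) (f y) := by simp [cm]

theorem cm_one_left {G : Type} [Group G] (y : G) : cm 1 y = 1 := by simp [cm]
theorem cm_one_right {G : Type} [Group G] (y : G) : cm y 1 = 1 := by simp [cm]

def wJ (J : ℕ) : F4 := cm (u3 J) (cm (u1 J) (u2 J))

/-- for elements fixing the letter true, taking the section there is multiplicative -/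
def St : Subgroup F4 where
  carrier := {w | ∀ e, per 0 w e = e}
  one_mem' := by intro e; simp [per_one]
  mul_mem' := by intro u v hu hv e; rw [per_mul, hv, hu]
  inv_mem' := by
    intro u hu e
    have := per_inv' 0 u e
    rwa [hu] at this

def secT : St →* F4 where
  toFun w := sec 0 w.1 true
  map_one' := sec_one _ _
  map_mul' u v := by
    show sec 0 (u.1 * v.1) true = _
    rw [sec_mul, v.2]

theorem u3_St (J : ℕ) : u3 J ∈ St := by
  cases J with
  | zero =>
    intro e
    cases e <;> simp [u3, pow_succ, per_mul]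
  | succ J => intro e; exact (tau_sec _ e).1

theorem ac2_St : (a * c) ^ 2 ∈ St := by
  intro e
  cases e <;> simp [pow_succ, per_mul]

theorem ab2_St : (a * b) ^ 2 ∈ St := by
  intro e
  cases e <;> simp [pow_succ, per_mul]

theorem u1_eq (J : ℕ) : u1 (J + 1) = ((a * c) ^ 2) ^ (2 ^ (J + 2)) := by
  rw [u1, ← pow_mul]; congr 1; ring
theorem u2_eq (J : ℕ) : u2 (J + 1) = ((a * b) ^ 2) ^ (2 ^ (J + 2)) := by
  rw [u2, ← pow_mul]; congr 1; ring

theorem wJ_sec (J : ℕ) : sec 0 (wJ (J + 1)) true = wJ J := by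
  have h1 : wJ (J + 1) = ((cm (⟨u3 (J + 1), u3_St _⟩ : St) (cm (⟨(a * c) ^ 2, ac2_St⟩ ^ (2 ^ (J + 2)))
      (⟨(a * b) ^ 2, ab2_St⟩ ^ (2 ^ (J + 2)))) : St) : F4) := by
    have := map_cm St.subtype (⟨u3 (J + 1), u3_St _⟩ : St) (cm (⟨(a * c) ^ 2, ac2_St⟩ ^ (2 ^ (J + 2)))
      (⟨(a * b) ^ 2, ab2_St⟩ ^ (2 ^ (J + 2))))
    rw [map_cm] at this
    rw [wJ, u1_eq, u2_eq]
    exact this.symm
  rw [h1]
  show secT _ = _
  rw [map_cm, map_cm, map_pow, map_pow]
  have e1 : secT (⟨u3 (J + 1), u3_St _⟩ : St) = u3 J := by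
    show sec 0 (tau (u3 J)) true = _
    rw [(tau_sec _ _).2]; rfl
  have e2 : secT (⟨(a * c) ^ 2, ac2_St⟩ : St) = a * c := by
    show sec 0 ((a * c) ^ 2) true = _
    rw [pow_two, sec_mul, sec_mul, sec_mul]
    simp [per_mul, sec_c_f]
  have e3 : secT (⟨(a * b) ^ 2, ab2_St⟩ : St) = a * b := by
    show sec 0 ((a * b) ^ 2) true = _
    rw [pow_two, sec_mul, sec_mul, sec_mul]
    simp [per_mul, sec_b_f]
  rw [e1, e2, e3]
  rfl

/-! the finite quotient -/

def qa : Equiv.Perm (Fin 5) := ⟨![0, 3, 2, 1, 4], ![0, 3, 2, 1, 4], by decide, by decide⟩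
def qb : Equiv.Perm (Fin 5) := ⟨![1, 0, 4, 3, 2], ![1, 0, 4, 3, 2], by decide, by decide⟩
def qc : Equiv.Perm (Fin 5) := ⟨![2, 4, 0, 3, 1], ![2, 4, 0, 3, 1], by decide, by decide⟩
def qd : Equiv.Perm (Fin 5) := ⟨![4, 2, 1, 3, 0], ![4, 2, 1, 3, 0], by decide, by decide⟩

def qf : F4 →* Equiv.Perm (Fin 5) := FreeGroup.lift ![qa, qb, qc, qd]

theorem w0_not_mem : wJ 0 ∉ R0 := by
  intro h
  have hk : R0 ≤ qf.ker := by
    apply R0_le_ker
    · simp [qf, a]; decide
    · simp [qf, b]; decide
    · simp [qf, c]; decide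
    · simp [qf, d]; decide
    · simp [qf, b, c, d]; decide
  have h1 : qf (wJ 0) = 1 := hk h
  rw [wJ, map_cm, map_cm, u3, u1, u2, map_pow, map_pow, map_pow, map_mul, map_mul, map_mul] at h1
  have ea : qf a = qa := by simp [qf, a]
  have eb : qf b = qb := by simp [qf, b]
  have ec : qf c = qc := by simp [qf, c]
  have ed : qf d = qd := by simp [qf, d]
  rw [ea, eb, ec, ed] at h1
  revert h1
  unfold cm
  decide +kernel

theorem wJ_not_mem (J : ℕ) : wJ J ∉ TJ J := by
  induction J with
  | zero => exact w0_not_mem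
  | succ J ih =>
    intro h
    apply ih
    have := (h true).2
    rwa [wJ_sec] at this

/-! the witnesses are in N -/

theorem act_sq (ω : ℕ → Fin 3) (s : Fin 4) : Phi ω (FreeGroup.of s * FreeGroup.of s) = 1 := by
  rw [map_mul, Phi_of]; apply Equiv.ext; intro v; exact act_act ω s v

theorem rel_tau {G : Type} [Group G] (f : F4 →* G) (h : R0 ≤ f.ker) : R0 ≤ (f.comp tau).ker := by
  have r : ∀ x ∈ R0, f x = 1 := fun x hx => h hx
  have ra := r _ aa_mem
  have rb := r _ bb_mem
  have rc := r _ cc_mem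
  have rd := r _ dd_mem
  have rbcd := r _ bcd_mem
  rw [map_mul] at ra rb rc rd
  rw [map_mul, map_mul] at rbcd
  apply R0_le_ker
  · simp only [MonoidHom.comp_apply, tau_a, map_mul]
    calc f a * f b * f a * (f a * f b * f a) = f a * f b * (f a * f a) * f b * f a := by group
      _ = f a * (f b * f b) * f a := by rw [ra]; group
      _ = 1 := by rw [rb]; simpa using ra
  · simpa using rb
  · simpa using rc
  · simpa using rd
  · simpa using rbcd

theorem rel_rho {G : Type} [Group G] (f : F4 →* G) (h : R0 ≤ f.ker) : R0 ≤ (f.comp rho).ker := by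
  have r : ∀ x ∈ R0, f x = 1 := fun x hx => h hx
  have ra := r _ aa_mem
  have rb := r _ bb_mem
  rw [map_mul] at ra rb
  apply R0_le_ker
  · simpa using rb
  · simpa using ra
  · simpa using ra
  · simp
  · simpa using ra

theorem rho_u3 {G : Type} [Group G] (f : F4 →* G) (h : R0 ≤ f.ker) (J : ℕ) : f (rho (u3 J)) = 1 := by
  -- u3 J = (tau^J a * d)^4
  have key : ∀ J, ∃ x : F4, u3 J = (x * d) ^ 4 ∧
      ∀ {G : Type} [Group G] (f : F4 →* G), R0 ≤ f.ker → f x * f x = 1 := by
    intro J
    induction J with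
    | zero =>
      refine ⟨a, rfl, ?_⟩
      intro G _ f h
      have := h aa_mem
      rwa [MonoidHom.mem_ker, map_mul] at this
    | succ J ih =>
      obtain ⟨x, hx, hx2⟩ := ih
      refine ⟨tau x, ?_, ?_⟩
      · show tau (u3 J) = _
        rw [hx, map_pow, map_mul, tau_d]
      · intro G _ f h
        exact hx2 (f.comp tau) (rel_tau f h)
  obtain ⟨x, hx, hx2⟩ := key J
  have h2 : f (rho x) * f (rho x) = 1 := hx2 (f.comp rho) (rel_rho f h)
  rw [hx, map_pow, map_mul, rho_d, mul_one, map_pow]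
  calc f (rho x) ^ 4 = (f (rho x) * f (rho x)) * (f (rho x) * f (rho x)) := by
        simp only [pow_succ, pow_zero, one_mul, mul_assoc]
    _ = 1 := by rw [h2]; simp

theorem u3_N (J : ℕ) : ∀ (ω : ℕ → Fin 3), (∀ i ≤ J, ω i = 0) → Phi ω (u3 J) = 1 := by
  induction J with
  | zero =>
    intro ω h
    have h0 : ω 0 = 0 := h 0 le_rfl
    rw [Phi_eq_one_iff]
    intro e
    rw [h0]
    refine ⟨u3_St 0 e, ?_⟩
    have : sec 0 (u3 0) e = d * d := by
      cases e <;> simp [u3, pow_succ, sec_mul, per_mul, sec_d_f]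
    rw [this]
    exact act_sq _ _
  | succ J ih =>
    intro ω h
    have h0 : ω 0 = 0 := h 0 (Nat.zero_le _)
    rw [Phi_eq_one_iff]
    intro e
    rw [h0]
    refine ⟨u3_St _ e, ?_⟩
    show Phi (sh ω) (sec 0 (tau (u3 J)) e) = 1
    rw [(tau_sec _ e).2]
    cases e with
    | true =>
      rw [if_pos rfl]
      exact ih _ (fun i hi => h (i + 1) (by omega))
    | false =>
      rw [if_neg (by simp)]
      exact rho_u3 _ (Phi_R0 _) J

theorem sec_pow (i : Fin 3) (w : F4) (h : ∀ e, per i w e = e) (n : ℕ) :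
    (∀ e, per i (w ^ n) e = e) ∧ ∀ e, sec i (w ^ n) e = (sec i w e) ^ n := by
  induction n with
  | zero => simp [per_one, sec_one]
  | succ n ih =>
    refine ⟨fun e => by rw [pow_succ, per_mul, h, ih.1], fun e => ?_⟩
    rw [pow_succ, sec_mul, h, ih.2, pow_succ]

theorem pw (s : Fin 4) (hs : s ≠ 0) (i0 : Fin 3) (hi : i0.val + s.val = 3) (J : ℕ) :
    ∀ (ω : ℕ → Fin 3), (∃ i ≤ J, ω i = i0) →
      Phi ω ((a * FreeGroup.of s) ^ (2 ^ (J + 2))) = 1 := by
  have hper : ∀ i e, per i ((a * FreeGroup.of s) * (a * FreeGroup.of s)) e = e := by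
    intro i e; simp [per_mul, per_of, hs]
  have hsec : ∀ i e, sec i ((a * FreeGroup.of s) * (a * FreeGroup.of s)) e =
      sl i s (!e) * sl i s e := by
    intro i e; simp [per_mul, sec_mul, per_of, sec_of, hs]
  have hsp : ∀ ω : ℕ → Fin 3, ω 0 = i0 →
      Phi ω ((a * FreeGroup.of s) ^ 4) = 1 := by
    intro ω h0
    have e4 : (a * FreeGroup.of s) ^ 4 = ((a * FreeGroup.of s) * (a * FreeGroup.of s)) ^ 2 := by
      simp only [pow_succ, pow_zero, one_mul, mul_assoc]
    rw [e4, Phi_eq_one_iff]
    obtain ⟨h1, h2⟩ := sec_pow (ω 0) _ (hper (ω 0)) 2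
    intro e
    refine ⟨h1 e, ?_⟩
    rw [h2 e, hsec, h0]
    have : sl i0 s (!e) * sl i0 s e = FreeGroup.of s := by
      cases e <;> simp [sl, hs, hi]
    rw [this, pow_two]
    exact act_sq _ _
  induction J with
  | zero =>
    rintro ω ⟨i, hi0, h⟩
    obtain rfl : i = 0 := by omega
    have := hsp ω h
    simpa using this
  | succ J ih =>
    rintro ω ⟨i, hi0, h⟩
    by_cases h0 : ω 0 = i0
    · have := hsp ω h0
      have e : (a * FreeGroup.of s) ^ (2 ^ (J + 1 + 2)) =
          ((a * FreeGroup.of s) ^ 4) ^ (2 ^ (J + 1)) := by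
        rw [← pow_mul]; congr 1; ring
      rw [e, map_pow, this, one_pow]
    · have hi1 : i ≠ 0 := by rintro rfl; exact h0 h
      obtain ⟨i, rfl⟩ : ∃ k, i = k + 1 := ⟨i - 1, by omega⟩
      have hx := ih (sh ω) ⟨i, by omega, h⟩
      have e : (a * FreeGroup.of s) ^ (2 ^ (J + 1 + 2)) =
          ((a * FreeGroup.of s) * (a * FreeGroup.of s)) ^ (2 ^ (J + 2)) := by
        rw [← pow_two, ← pow_mul]; congr 1; ring
      rw [e, Phi_eq_one_iff]
      obtain ⟨h1, h2⟩ := sec_pow (ω 0) _ (hper (ω 0)) (2 ^ (J + 2))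
      intro e
      refine ⟨h1 e, ?_⟩
      rw [h2 e, hsec]
      have hne : (ω 0).val + s.val ≠ 3 := by
        intro h3
        apply h0
        apply Fin.ext
        omega
      cases e with
      | true =>
        have : sl (ω 0) s (!true) * sl (ω 0) s true = a * FreeGroup.of s := by
          simp [sl, hs, hne, a]
        rw [this]; exact hx
      | false =>
        have : sl (ω 0) s (!false) * sl (ω 0) s false = a⁻¹ * (a * FreeGroup.of s) * (a⁻¹)⁻¹ := by
          simp [sl, hs, hne, a]
        rw [this, conj_pow, map_mul, map_mul, hx, map_inv]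
        simp

theorem wJ_N (J : ℕ) (ω : ℕ → Fin 3) : Phi ω (wJ J) = 1 := by
  rw [wJ, map_cm, map_cm]
  by_cases h0 : ∀ i ≤ J, ω i = 0
  · rw [u3_N J ω h0, cm_one_left]
  · push_neg at h0
    obtain ⟨i, hi, h⟩ := h0
    have h12 : ω i = 1 ∨ ω i = 2 := by
      revert h; generalize ω i = x; fin_cases x <;> simp
    rcases h12 with h1 | h2
    · have : Phi ω (u1 J) = 1 := pw 2 (by decide) 1 (by decide) J ω ⟨i, hi, h1⟩
      rw [this, cm_one_left, cm_one_right]
    · have : Phi ω (u2 J) = 1 := pw 1 (by decide) 2 (by decide) J ω ⟨i, hi, h2⟩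
      rw [this, cm_one_right, cm_one_right]

theorem main (S : Finset F4) (h : ∀ w : F4, w ∈ Subgroup.normalClosure (S : Set F4) ↔
    ∀ ω : ℕ → Fin 3, Phi ω w = 1) : False := by
  -- a common level
  have hJ : ∃ J, ∀ s ∈ S, C J s := by
    choose f hf using exists_C
    refine ⟨S.sup f, fun s hs => C_mono (Finset.le_sup hs) (hf s)⟩
  obtain ⟨J, hJ⟩ := hJ
  have hS : Subgroup.normalClosure (S : Set F4) ≤ TJ J := by
    have := TJ_normal J
    apply Subgroup.normalClosure_le_normal
    intro s hs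
    apply mem_TJ_of J s (hJ s hs)
    exact (h s).1 (Subgroup.subset_normalClosure hs) _
  exact wJ_not_mem J (hS ((h _).2 (fun ω => wJ_N J ω)))

/-- the fold in the statement is the action -/
theorem fold_eq (ω : ℕ → Fin 3) (L : List (Fin 4 × Bool)) :
    L.foldr (fun p f => act ω p.1 ∘ f) id = ⇑(Phi ω (FreeGroup.mk L)) := by
  induction L with
  | nil =>
    rw [List.foldr_nil]
    have : (FreeGroup.mk [] : F4) = 1 := rfl
    rw [this, map_one]; rfl
  | cons p L ih =>
    rw [List.foldr_cons, ih]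
    have e : FreeGroup.mk (p :: L) = FreeGroup.mk [p] * FreeGroup.mk L := by
      rw [FreeGroup.mul_mk]; rfl
    rw [e, map_mul]
    rcases p with ⟨s, t⟩
    have hst : ⇑(Phi ω (FreeGroup.mk [(s, t)])) = act ω s := by
      cases t with
      | true =>
        have : (FreeGroup.mk [(s, true)] : F4) = FreeGroup.of s := rfl
        rw [this, Phi_of]; rfl
      | false =>
        have : (FreeGroup.mk [(s, false)] : F4) = (FreeGroup.of s)⁻¹ := rfl
        rw [this, map_inv, Phi_of]; rfl
    rw [Equiv.Perm.coe_mul, hst]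

end Pool.Agent.H72R2.UGrig
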